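import Mathlib
import Pool.Agent.H568R2.Defs
import Pool.Agent.H568R2.Final

/-!
Unconditionally, no family of constant-depth circuits of size `n ^ o(k)` approximates the
dominating number with ratio `f k`, for any function `f`.

Sketch. Take `m` constraints of arity `21` on `m` variables over an alphabet of size `n` whose
scopes form an expander. Deciding whether such an instance has a solution requires constant-depth
circuits of size `n ^ Ω(m)`: a switching lemma shows that a function computed by a small circuit
is rarely sensitive, at a random sparse instance with a planted solution, to the planted values
of a set of between `m/4` and `m/2` constraints, whereas the circuit has to pass through such a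
function. A hashing gap reduction, in which each adjacency bit is a constant or one input bit,
turns such an instance into a graph whose dominating number is at most `m` if there is a solution
and more than `f m * m` otherwise.
-/

namespace Pool.Agent.Results.MP_01def2_lc.DomSetConstantDepth

open DomAC0

/-- For every function `f : ℕ → ℕ`, no constant-depth family of circuits of size `n ^ o(k)`
approximates the dominating number with ratio `f k`. -/
theorem result : ∀ f : ℕ → ℕ, ¬ ∃ C : (n k : ℕ) → Circuit (Pairs n),
    ConstDepthLittleO C ∧ Approximates C f := by
  rintro f ⟨C, hC, hA⟩
  exact H568R2.main f C hC hA

end Pool.Agent.Results.MP_01def2_lc.DomSetConstantDepth
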